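import Mathlib

set_option autoImplicit false
set_option maxHeartbeats 400000

namespace Pool.Agent.Results.MP_1e0c69_ag.CubicSurface

open MvPolynomial

/-- The linear form with coefficient vector `v`. -/
noncomputable def lin {σ : Type} [Fintype σ] (v : σ → ℂ) : MvPolynomial σ ℂ := ∑ j, C (v j) * X j

/-- Waring rank in degree `d`: the least `w` such that `F` is a sum of `w` `d`-th powers of
linear forms. -/
noncomputable def WR {σ : Type} [Fintype σ] (d : ℕ) (F : MvPolynomial σ ℂ) : ℕ∞ :=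
  ⨅ (w : ℕ) (_ : ∃ l : Fin w → σ → ℂ, F = ∑ i, lin (l i) ^ d), (w : ℕ∞)

lemma cone (p q r a b c : ℂ) (G : ℂ → ℂ → ℂ → ℂ)
    (hG : ∀ x y z, G x y z = (x + 2 * y + 3 * z) ^ 3 - x ^ 3 - 2 * y ^ 3 - 3 * z ^ 3 +
      (p * x + q * y + r * z) * (3 * ((x + 2 * y + 3 * z) ^ 2 - x ^ 2 - 2 * y ^ 2 - 3 * z ^ 2)))
    (h : ∀ x y z t, G (x + t * a) (y + t * b) (z + t * c) = G x y z) : a = 0 ∧ b = 0 ∧ c = 0 := by
  have e : ∀ x y z, (8 * (G (x + 1 * a) (y + 1 * b) (z + 1 * c) -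
      G (x + -1 * a) (y + -1 * b) (z + -1 * c)) - (G (x + 2 * a) (y + 2 * b) (z + 2 * c) -
      G (x + -2 * a) (y + -2 * b) (z + -2 * c))) / 12 = 0 := fun x y z => by simp only [h]; ring
  have e0 := e 1 0 0
  have e1 := e 0 1 0
  have e2 := e 0 0 1
  have e3 := e 1 1 0
  have e4 := e 1 0 1
  have e5 := e 0 1 1
  simp only [hG] at e0 e1 e2 e3 e4 e5
  refine ⟨?_, ?_, ?_⟩
  · linear_combination
      ((-2587/3150) + (-953/6300)*r + (-4507/3150)*r^2 + (-1897/1200)*q + (937/300)*q*r +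
      (-1763/600)*q^2 + (121/525)*p + (947/1050)*p*r + (-107/200)*p*q + (-363/350)*p^2) * e0 +
      ((-557/900) + (-317/2700)*r + (-1133/1350)*r^2 + (-13553/10800)*q + (397/675)*q*r +
      (-301/450)*q^2 + (-793/300)*p + (26/25)*p*r + (-881/600)*p*q + (-149/50)*p^2) * e1 +
      ((-2689/6300) + (-2119/3150)*r + (-452/2025)*r^2 + (-3019/5400)*q + (473/2700)*q*r +
      (-769/675)*q^2 + (-11323/6300)*p + (-1879/3150)*p*r + (137/300)*p*q + (-2159/1050)*p^2) *
      e2 + ((2903/12600) + (-5689/4725)*r + (-56/675)*r^2 + (4891/3600)*q + (-281/900)*q*r +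
      (43/225)*q^2 + (571/600)*p + (-787/1050)*p*r + (347/200)*p*q + (121/700)*p^2) * e3 +
      ((23/600) + (11429/18900)*r + (113/1350)*r^2 + (-373/450)*q + (-103/450)*q*r +
      (97/900)*q^2 + (2057/4200)*p + (148/175)*p*r + (-16/25)*p*q + (121/700)*p^2) * e4 +
      ((237/1400) + (5839/18900)*r + (113/1350)*r^2 + (2479/5400)*q + (857/2700)*q*r +
      (43/225)*q^2 + (221/600)*p + (-29/350)*p*r + (-17/300)*p*q + (471/700)*p^2) * e5
  · linear_combination
      ((-31447/9450) + (-81073/18900)*r + (-16717/9450)*r^2 + (-69881/10800)*q +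
      (-8489/2700)*q*r + (-5453/1800)*q^2 + (-23302/4725)*p + (-2939/9450)*p*r + (2069/1800)*p*q
      + (-8513/1050)*p^2) * e0 + ((-4327/2700) + (881/2700)*r + (-47/450)*r^2 + (-161/10800)*q +
      (-427/1350)*q*r + (49/225)*q^2 + (-16499/2700)*p + (739/675)*p*r + (203/600)*p*q +
      (-2947/450)*p^2) * e1 + ((-267/700) + (1741/9450)*r + (44/225)*r^2 + (191/200)*q +
      (47/900)*q*r + (49/1350)*q^2 + (-51523/18900)*p + (-809/9450)*p*r + (5971/2700)*p*q +
      (-37777/9450)*p^2) * e2 + ((26071/12600) + (9269/9450)*r + (238/675)*r^2 + (3667/3600)*q +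
      (-3/100)*q*r + (-14/225)*q^2 + (7841/1800)*p + (2873/3150)*p*r + (4051/1800)*p*q +
      (8513/6300)*p^2) * e3 + ((5479/5400) + (7073/18900)*r + (-11/150)*r^2 + (277/1350)*q +
      (-353/1350)*q*r + (119/900)*q^2 + (116441/37800)*p + (6172/4725)*p*r + (97/225)*p*q +
      (8513/6300)*p^2) * e4 + ((-33157/37800) + (-8657/18900)*r + (-11/150)*r^2 + (-2777/5400)*q
      + (269/2700)*q*r + (-14/225)*q^2 + (-10367/5400)*p + (-8531/9450)*p*r + (-1037/900)*p*q +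
      (-79/2100)*p^2) * e5
  · linear_combination
      ((1264/525) + (10013/3150)*r + (419/525)*r^2 + (967/225)*q + (3223/900)*q*r +
      (121/100)*q^2 + (7663/3150)*p + (-617/3150)*p*r + (-247/150)*p*q + (1208/175)*p^2) * e0 +
      ((557/450) + (577/1350)*r + (-17/675)*r^2 + (-721/2700)*q + (209/2700)*q*r + (329/900)*q^2
      + (1829/450)*p + (509/450)*p*r + (-359/300)*p*q + (479/150)*p^2) * e1 + ((533/1050) +
      (-391/1575)*r + (104/2025)*r^2 + (149/2700)*q + (-193/1350)*q*r + (-323/2700)*q^2 +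
      (1178/525)*p + (-551/1575)*p*r + (433/900)*p*q + (6389/3150)*p^2) * e2 + ((-4169/3150) +
      (-6919/9450)*r + (62/675)*r^2 + (-463/900)*q + (-283/900)*q*r + (-47/450)*q^2 +
      (-413/150)*p + (-477/350)*p*r + (-19/75)*p*q + (-604/525)*p^2) * e3 + ((-317/450) +
      (-872/4725)*r + (-13/675)*r^2 + (-203/900)*q + (-2/225)*q*r + (281/900)*q^2 +
      (-3419/1575)*p + (-509/1575)*p*r + (-163/150)*p*q + (-604/525)*p^2) * e4 + ((733/1575) +
      (1073/4725)*r + (-13/675)*r^2 + (203/1350)*q + (113/1350)*q*r + (-47/450)*q^2 +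
      (263/225)*p + (566/1575)*p*r + (33/100)*p*q + (239/350)*p^2) * e5

theorem result : ∃ (n d : ℕ) (f g : MvPolynomial (Fin n) ℂ), 1 ≤ n ∧ 1 ≤ d ∧ f ≠ 0 ∧ g ≠ 0 ∧
    f.IsHomogeneous d ∧ g.IsHomogeneous (d - 1) ∧
    WR d (rename some f + X none * rename some g) < d + ⨅ v : Fin n → ℂ, WR d (f + lin v * g) := by
  refine ⟨3, 3, (X 0 + C 2 * X 1 + C 3 * X 2) ^ 3 - X 0 ^ 3 - C 2 * X 1 ^ 3 - C 3 * X 2 ^ 3,
    C 3 * ((X 0 + C 2 * X 1 + C 3 * X 2) ^ 2 - X 0 ^ 2 - C 2 * X 1 ^ 2 - C 3 * X 2 ^ 2),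
    by norm_num, by norm_num, fun h => ?_, fun h => ?_, ?_, ?_, ?_⟩
  · have := congrArg (eval ![0, 1, 0]) h
    simp at this
    norm_num at this
  · have := congrArg (eval ![0, 1, 0]) h
    simp at this
    norm_num at this
  · have h := fun i : Fin 3 => isHomogeneous_X ℂ i
    exact (((((h 0).add ((h 1).C_mul _)).add ((h 2).C_mul _)).pow 3).sub ((h 0).pow 3)).sub
      (((h 1).pow 3).C_mul _) |>.sub (((h 2).pow 3).C_mul _)
  · have h := fun i : Fin 3 => isHomogeneous_X ℂ i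
    exact ((((((h 0).add ((h 1).C_mul _)).add ((h 2).C_mul _)).pow 2).sub ((h 0).pow 2)).sub
      (((h 1).pow 2).C_mul _) |>.sub (((h 2).pow 2).C_mul _)).C_mul _
  refine lt_of_le_of_lt (b := ((5 : ℕ) : ℕ∞)) ?_
    (lt_of_lt_of_le (b := ((3 : ℕ) : ℕ∞) + ((3 : ℕ) : ℕ∞))
    (by norm_cast) (add_le_add le_rfl (le_iInf fun v => le_iInf₂ fun w hl => ?_)))
  · obtain ⟨s, hs⟩ := IsAlgClosed.exists_pow_nat_eq (5 : ℂ) (n := 3) (by norm_num)
    obtain ⟨t, ht⟩ := IsAlgClosed.exists_pow_nat_eq (-2 : ℂ) (n := 3) (by norm_num)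
    obtain ⟨u, hu⟩ := IsAlgClosed.exists_pow_nat_eq (-3 : ℂ) (n := 3) (by norm_num)
    refine iInf₂_le (5 : ℕ) ⟨![fun o => o.elim s ![0, 0, 0], fun o => o.elim (-1) ![-1, 0, 0],
      fun o => o.elim t ![0, t, 0], fun o => o.elim u ![0, 0, u],
      fun o => o.elim 1 ![1, 2, 3]], MvPolynomial.funext fun x => ?_⟩
    simp [lin, Fin.sum_univ_succ]
    linear_combination (-x none ^ 3) * hs - (x none + x (some 1)) ^ 3 * ht -
      (x none + x (some 2)) ^ 3 * hu
  · by_contra h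
    obtain ⟨l, hl⟩ := hl
    have h1 : w < 3 := by exact_mod_cast not_le.1 h
    obtain ⟨a, h2, h3⟩ := (Submodule.ne_bot_iff _).1 (LinearMap.ker_ne_bot_of_finrank_lt
      (f := Matrix.mulVecLin (Matrix.of l)) (by simpa using h1))
    have h4 : ∀ i, l i 0 * a 0 + l i 1 * a 1 + l i 2 * a 2 = 0 := fun i => by
      simpa [Matrix.mulVec, dotProduct, Fin.sum_univ_three] using congrFun h2 i
    obtain ⟨h5, h6, h7⟩ := cone (v 0) (v 1) (v 2) (a 0) (a 1) (a 2)
      (fun x y z => ∑ i, (l i 0 * x + l i 1 * y + l i 2 * z) ^ 3) (fun x y z => by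
        simpa [lin, Fin.sum_univ_three] using (congrArg (eval ![x, y, z]) hl).symm)
      (fun x y z t => Finset.sum_congr rfl fun i _ => by
        congr 1
        linear_combination t * h4 i)
    exact h3 (by ext i; fin_cases i <;> assumption)

end Pool.Agent.Results.MP_1e0c69_ag.CubicSurface
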